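import Pool.Agent.Helper75.FU.StP

/-!
# Project FU, module N4: induction on the number of variables
-/

set_option autoImplicit false

namespace Pool.Agent.Helper29.FU

open Pool.Agent.Helper75.FU Pool.Agent.Helper91.GU

universe u

theorem N4_const {R : Type u} [CommRing R] (q : MvPolynomial (Fin 0) R) :
    MvPolynomial.C (MvPolynomial.constantCoeff q) = q := by
  conv_rhs => rw [MvPolynomial.eq_C_of_isEmpty q]
  rfl

theorem hN4 (hB7 : Pool.Agent.Helper91.GU.StB7.{u}) (hN2 : StN2.{u}) (hN3 : StN3.{u}) :
    StN4.{u} := by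
  intro s n hs
  induction n with
  | zero =>
    intro R _ _ hd hu v hv
    have e : (fun j => MvPolynomial.C (MvPolynomial.constantCoeff (v j))) = v := by
      funext j
      exact N4_const (v j)
    rw [e]
    exact ((hB7 (MvPolynomial (Fin 0) R) (MvPolynomial (Fin 0) R) (RingHom.id _)).1
      (Unit ⊕ Fin (s + 1))).1 v
  | succ n ih =>
    exact hN3 s (n + 1) hs (fun R _ _ _ hd hu v hv => hN2 s n hs ih R hd hu v hv)

end Pool.Agent.Helper29.FU
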